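import Pool.Agent.H98.RFZ.Targets2

/-!
# Almost straight paths (row B1 of the board rfz, helper10)
-/

set_option autoImplicit false

namespace Pool.Agent.H10.RFZ

open Pool.Agent.H98.RFC Pool.Agent.H98.RFZ

theorem nsq_cast (x : Site) : (nsq x : ℝ) = (x.1 : ℝ) ^ 2 + (x.2 : ℝ) ^ 2 := by
  unfold nsq
  push_cast
  rfl

theorem nsq_nonneg (x : Site) : (0 : ℝ) ≤ (nsq x : ℝ) := by
  rw [nsq_cast]
  positivity

theorem nrm_sq (x : Site) : nrm x ^ 2 = (nsq x : ℝ) := Real.sq_sqrt (nsq_nonneg x)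

theorem nrm_nonneg (x : Site) : 0 ≤ nrm x := Real.sqrt_nonneg _

theorem nrm_neg (x : Site) : nrm (-x) = nrm x := by
  unfold nrm
  rw [nsq_cast, nsq_cast]
  simp

theorem nrm_add (x y : Site) : nrm (x + y) ≤ nrm x + nrm y := by
  refine (sq_le_sq₀ (nrm_nonneg _) (add_nonneg (nrm_nonneg x) (nrm_nonneg y))).1 ?_
  have h1 := nrm_sq x
  have h2 := nrm_sq y
  have h3 := nrm_sq (x + y)
  rw [nsq_cast] at h1 h2 h3
  simp only [Prod.fst_add, Prod.snd_add, Int.cast_add] at h3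
  have h4 : (x.1 : ℝ) * y.1 + (x.2 : ℝ) * y.2 ≤ nrm x * nrm y := by
    refine le_of_sq_le_sq ?_ (mul_nonneg (nrm_nonneg x) (nrm_nonneg y))
    rw [mul_pow, h1, h2]
    nlinarith [sq_nonneg ((x.1 : ℝ) * y.2 - (x.2 : ℝ) * y.1)]
  nlinarith

theorem nrm_sub (x y z : Site) : nrm (x - z) ≤ nrm (x - y) + nrm (y - z) := by
  have := nrm_add (x - y) (y - z)
  rwa [sub_add_sub_cancel] at this

theorem nrm_le_iff (x : Site) (r : ℕ) : nrm x ≤ r ↔ nsq x ≤ (r : ℤ) ^ 2 := by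
  constructor
  · intro h
    have h1 := pow_le_pow_left₀ (nrm_nonneg x) h 2
    rw [nrm_sq] at h1
    exact_mod_cast h1
  · intro h
    have h1 : (nsq x : ℝ) ≤ (r : ℝ) ^ 2 := by exact_mod_cast h
    rw [← nrm_sq] at h1
    exact (sq_le_sq₀ (nrm_nonneg _) (Nat.cast_nonneg r)).1 h1

theorem mem_eb (z x : Site) (r : ℕ) : x ∈ eb z r ↔ nrm (x - z) ≤ r := by
  rw [nrm_le_iff]
  unfold eb bx
  rw [Finset.mem_filter]
  constructor
  · exact fun h => h.2
  · intro h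
    refine ⟨?_, h⟩
    unfold nsq at h
    simp only [Prod.fst_sub, Prod.snd_sub] at h
    rw [Finset.mem_product, Finset.mem_Icc, Finset.mem_Icc]
    have h1 : |x.1 - z.1| ≤ r := abs_le_of_sq_le_sq (by nlinarith [sq_nonneg (x.2 - z.2)])
      (Int.natCast_nonneg r)
    have h2 : |x.2 - z.2| ≤ r := abs_le_of_sq_le_sq (by nlinarith [sq_nonneg (x.1 - z.1)])
      (Int.natCast_nonneg r)
    rw [abs_le] at h1 h2
    refine ⟨⟨?_, ?_⟩, ?_, ?_⟩ <;> linarith [h1.1, h1.2, h2.1, h2.2]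

/-- a grid point near `x` -/
theorem grid (v : ℕ) (hv : 0 < v) (x : Site) : ∃ y : Site, nrm (x - sm v y) ≤ 2 * v := by
  have hv' : (0 : ℤ) < v := by exact_mod_cast hv
  refine ⟨(x.1 / v, x.2 / v), ?_⟩
  have h1 : (2 * (v : ℝ)) = ((2 * v : ℕ) : ℝ) := by push_cast; ring
  rw [h1, nrm_le_iff]
  unfold nsq sm
  simp only [Prod.fst_sub, Prod.snd_sub]
  have e1 := Int.emod_add_mul_ediv x.1 v
  have e2 := Int.emod_add_mul_ediv x.2 v
  have a1 := Int.emod_nonneg x.1 hv'.ne'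
  have a2 := Int.emod_nonneg x.2 hv'.ne'
  have b1 := Int.emod_lt_of_pos x.1 hv'
  have b2 := Int.emod_lt_of_pos x.2 hv'
  have f1 : x.1 - v * (x.1 / v) = x.1 % v := by linarith
  have f2 : x.2 - v * (x.2 / v) = x.2 % v := by linarith
  rw [f1, f2]
  push_cast
  nlinarith

/-- the length of a step -/
theorem step_le {R : ℕ} {J : Site → ℝ} (hJ : IsCoupling R J) (z : Site) (hz : 0 < J z) :
    nrm z ≤ 2 * R := by
  have h1 : z ∈ box R := by
    by_contra h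
    rw [hJ.range z h] at hz
    exact lt_irrefl _ hz
  unfold box at h1
  rw [Finset.mem_product, Finset.mem_Icc, Finset.mem_Icc] at h1
  obtain ⟨⟨a1, a2⟩, a3, a4⟩ := h1
  have h2 : (2 * (R : ℝ)) = ((2 * R : ℕ) : ℝ) := by push_cast; ring
  rw [h2, nrm_le_iff]
  unfold nsq
  push_cast
  have h3 : z.1 ^ 2 ≤ (R : ℤ) ^ 2 := sq_le_sq' a1 a2
  have h4 : z.2 ^ 2 ≤ (R : ℤ) ^ 2 := sq_le_sq' a3 a4
  nlinarith [sq_nonneg (R : ℤ)]

/-- a piece of the path up to the first exit from a ball is slow -/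
theorem piece (hDM : Z_DM) {R : ℕ} {J : Site → ℝ} (hJ : IsCoupling R J) (h : Site → ℝ)
    (N : Site → ℝ) (v m : ℕ) (hv : 20 * R + 20 ≤ v) (hm : 8 * v ≤ m)
    (hgood : ∀ y : Site, sm v y ∈ eb 0 (9 * m) → ¬ BadN R J h N v (sm v y))
    (k : ℕ) (x : ℕ → Site) (hx : IsPath J (Ds R J h (eb 0 (10 * m))) k x)
    (hin : ∀ i, i ≤ k → x i ∈ eb 0 (8 * m)) (i i' : ℕ) (hii : i < i') (hk : i' ≤ k)
    (hnear : ∀ l, i ≤ l → l < i' → nrm (x l - x i) < v)
    (hfar : (v : ℤ) ^ 2 ≤ nsq (x i' - x i)) : N (x i' - x i) ≤ (i' : ℝ) - i := by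
  by_contra hlt
  push Not at hlt
  have hv0 : 0 < v := by omega
  obtain ⟨y, hy⟩ := grid v hv0 (x i)
  have hR : (20 * (R : ℝ) + 20) ≤ v := by exact_mod_cast hv
  have hm' : (8 * (v : ℝ)) ≤ m := by exact_mod_cast hm
  have hv' : (0 : ℝ) < v := by exact_mod_cast hv0
  have hxi : nrm (x i) ≤ 8 * m := by
    have h1 := (mem_eb 0 (x i) (8 * m)).1 (hin i (by omega))
    rw [sub_zero] at h1
    push_cast at h1
    exact h1
  have hz : nrm (sm v y) ≤ 8 * m + 2 * v := by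
    have h1 := nrm_sub (sm v y) (x i) 0
    rw [sub_zero, sub_zero] at h1
    have h2 : nrm (sm v y - x i) = nrm (x i - sm v y) := by rw [← nrm_neg, neg_sub]
    linarith
  have hpt : ∀ l, i ≤ l → l ≤ i' → nrm (x l - x i) ≤ 11 / 10 * v := by
    intro l h1 h2
    rcases Nat.lt_or_ge l i' with h3 | h3
    · have := hnear l h1 h3
      linarith
    · have h4 : l = i' := le_antisymm h2 h3
      subst h4
      obtain ⟨l', rfl⟩ : ∃ l', l = l' + 1 := ⟨l - 1, by omega⟩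
      have h5 := nrm_sub (x (l' + 1)) (x l') (x i)
      have h6 := step_le hJ _ (hx.2 l' (by omega))
      have h7 := hnear l' (by omega) (by omega)
      linarith
  have hptz : ∀ l, i ≤ l → l ≤ i' → nrm (x l - sm v y) ≤ 4 * v := by
    intro l h1 h2
    have h3 := nrm_sub (x l) (x i) (sm v y)
    have h4 := hpt l h1 h2
    linarith
  have hsub : eb (sm v y) (10 * v) ⊆ eb 0 (10 * m) := by
    intro w hw
    rw [mem_eb] at hw ⊢
    have h1 := nrm_sub w (sm v y) 0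
    rw [sub_zero, sub_zero] at h1
    rw [sub_zero]
    push_cast at hw ⊢
    linarith
  refine hgood y ?_ ⟨i' - i, fun l => x (i + l), ⟨?_, ?_⟩, ?_, ?_, ?_, ?_⟩
  · rw [mem_eb, sub_zero]
    push_cast
    linarith
  · intro l hl
    refine hDM R J hJ h (eb (sm v y) (10 * v)) (eb 0 (10 * m)) hsub ?_
    rw [Finset.mem_inter]
    refine ⟨hx.1 (i + l) (by omega), ?_⟩
    rw [mem_eb]
    have := hptz (i + l) (by omega) (by omega)
    push_cast
    linarith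
  · intro l hl
    exact hx.2 (i + l) (by omega)
  · intro l hl
    rw [mem_eb]
    have := hptz (i + l) (by omega) (by omega)
    push_cast
    linarith
  · rw [mem_eb]
    push_cast
    exact hy
  · show (v : ℤ) ^ 2 ≤ nsq (x (i + (i' - i)) - x (i + 0))
    rw [add_zero, Nat.add_sub_cancel' hii.le]
    exact hfar
  · show ((i' - i : ℕ) : ℝ) < N (x (i + (i' - i)) - x (i + 0))
    rw [add_zero, Nat.add_sub_cancel' hii.le, Nat.cast_sub hii.le]
    exact hlt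

/-- the chain of first exits -/
theorem chain (hDM : Z_DM) {R : ℕ} {J : Site → ℝ} (hJ : IsCoupling R J) (h : Site → ℝ)
    (N : Site → ℝ) (α β : ℝ) (hN : IsN N α β) (v m : ℕ) (hv : 20 * R + 20 ≤ v) (hm : 8 * v ≤ m)
    (hgood : ∀ y : Site, sm v y ∈ eb 0 (9 * m) → ¬ BadN R J h N v (sm v y))
    (k : ℕ) (x : ℕ → Site) (hx : IsPath J (Ds R J h (eb 0 (10 * m))) k x)
    (hin : ∀ i, i ≤ k → x i ∈ eb 0 (8 * m)) :
    ∀ n i l : ℕ, l - i = n → i ≤ l → l ≤ k →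
      ∃ j, i ≤ j ∧ j ≤ l ∧ nrm (x l - x j) < v ∧ N (x j - x i) ≤ (j : ℝ) - i := by
  intro n
  induction n using Nat.strong_induction_on with
  | _ n ih =>
  intro i l hn hil hlk
  have hv0 : (0 : ℝ) < v := by exact_mod_cast (by omega : 0 < v)
  have hnrm0 : nrm 0 = 0 := by
    unfold nrm
    rw [nsq_cast]
    simp
  by_cases hclose : nrm (x l - x i) < v
  · refine ⟨i, le_rfl, hil, hclose, ?_⟩
    rw [sub_self, sub_self]
    have := (hN.2.2 0).2
    rw [hnrm0, mul_zero] at this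
    exact this
  · classical
    have hex : ∃ l', i < l' ∧ ¬ nrm (x l' - x i) < v := by
      refine ⟨l, ?_, hclose⟩
      rcases hil.lt_or_eq with h1 | h1
      · exact h1
      · subst h1
        rw [sub_self, hnrm0] at hclose
        exact absurd hv0 hclose
    set i' := Nat.find hex with hi'
    obtain ⟨h1, h2⟩ := Nat.find_spec hex
    rw [← hi'] at h1 h2
    have h3 : i' ≤ l := by
      refine Nat.find_min' hex ⟨?_, hclose⟩
      rcases hil.lt_or_eq with h4 | h4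
      · exact h4
      · subst h4
        rw [sub_self, hnrm0] at hclose
        exact absurd hv0 hclose
    have hnear : ∀ l', i ≤ l' → l' < i' → nrm (x l' - x i) < v := by
      intro l' h4 h5
      rcases h4.lt_or_eq with h6 | h6
      · by_contra h7
        exact Nat.find_min hex h5 ⟨h6, h7⟩
      · subst h6
        rw [sub_self, hnrm0]
        exact hv0
    have hfar : (v : ℤ) ^ 2 ≤ nsq (x i' - x i) := by
      push Not at h2
      have h4 := pow_le_pow_left₀ hv0.le h2 2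
      rw [nrm_sq] at h4
      exact_mod_cast h4
    have h5 := piece hDM hJ h N v m hv hm hgood k x hx hin i i' h1 (by omega) hnear hfar
    obtain ⟨j, j1, j2, j3, j4⟩ := ih (l - i') (by omega) i' l rfl h3 hlk
    refine ⟨j, by omega, j2, j3, ?_⟩
    have h6 := hN.1 (x j - x i') (x i' - x i)
    rw [sub_add_sub_cancel] at h6
    linarith

/-- the quadratic form along a chord -/
theorem chord (α a b g1 g2 f1 f2 t nY nZ nX P : ℝ) (hP : 0 < P)
    (hnY : a * g1 ^ 2 + b * f1 ^ 2 = P * nY ^ 2) (hnZ : a * g2 ^ 2 + b * f2 ^ 2 = P * nZ ^ 2)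
    (hnX : a * (g1 + g2) ^ 2 + b * (f1 + f2) ^ 2 = P * nX ^ 2) (w : ℝ)
    (ha : α ^ 2 ≤ a) (hb : α ^ 2 ≤ b)
    (hw : (g1 - t * (g1 + g2)) ^ 2 + (f1 - t * (f1 + f2)) ^ 2 = P * w) :
    α ^ 2 * w ≤ (1 - t) * nY ^ 2 + t * nZ ^ 2 - t * (1 - t) * nX ^ 2 := by
  have h1 : a * (g1 - t * (g1 + g2)) ^ 2 + b * (f1 - t * (f1 + f2)) ^ 2 =
      P * ((1 - t) * nY ^ 2 + t * nZ ^ 2 - t * (1 - t) * nX ^ 2) := by
    linear_combination (1 - t) * hnY + t * hnZ - t * (1 - t) * hnX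
  have h2 : P * (α ^ 2 * w) ≤ P * ((1 - t) * nY ^ 2 + t * nZ ^ 2 - t * (1 - t) * nX ^ 2) := by
    rw [← h1]
    have h3 : P * (α ^ 2 * w) = α ^ 2 * ((g1 - t * (g1 + g2)) ^ 2 + (f1 - t * (f1 + f2)) ^ 2) := by
      rw [hw]; ring
    rw [h3]
    nlinarith [mul_le_mul_of_nonneg_right ha (sq_nonneg (g1 - t * (g1 + g2))),
      mul_le_mul_of_nonneg_right hb (sq_nonneg (f1 - t * (f1 + f2)))]
  exact le_of_mul_le_mul_left h2 hP

/-- the choice of the point of the chord -/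
theorem chord2 (nY nZ nX κ : ℝ) (hY : 0 ≤ nY) (hZ : 0 ≤ nZ) (hX : 0 < nX) (h1 : nX ≤ nY + nZ)
    (hκ : 0 < κ) (hκ1 : κ < 1) (h2 : nY + nZ ≤ (1 + 2 * κ) * nX) :
    ∃ t : ℝ, 0 ≤ t ∧ t ≤ 1 ∧
      (1 - t) * nY ^ 2 + t * nZ ^ 2 - t * (1 - t) * nX ^ 2 ≤ 2 * κ * nX ^ 2 := by
  have hs : 0 < nY + nZ := by linarith
  refine ⟨nY / (nY + nZ), by positivity, ?_, ?_⟩
  · rw [div_le_one hs]
    linarith
  · have h3 : (1 - nY / (nY + nZ)) * nY ^ 2 + nY / (nY + nZ) * nZ ^ 2 -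
        nY / (nY + nZ) * (1 - nY / (nY + nZ)) * nX ^ 2 =
        nY * nZ / (nY + nZ) ^ 2 * ((nY + nZ) ^ 2 - nX ^ 2) := by
      field_simp
      ring
    rw [h3]
    have h4 : nY * nZ / (nY + nZ) ^ 2 ≤ 1 / 4 := by
      rw [div_le_iff₀ (by positivity)]
      nlinarith [sq_nonneg (nY - nZ)]
    have h5 : 0 ≤ (nY + nZ) ^ 2 - nX ^ 2 := by nlinarith
    have h6 : (nY + nZ) ^ 2 ≤ ((1 + 2 * κ) * nX) ^ 2 := pow_le_pow_left₀ hs.le h2 2
    have h7 := mul_le_mul_of_nonneg_right h4 h5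
    have h8 : (nY + nZ) ^ 2 - nX ^ 2 ≤ (4 * κ + 4 * κ ^ 2) * nX ^ 2 := by
      have : ((1 + 2 * κ) * nX) ^ 2 = nX ^ 2 + (4 * κ + 4 * κ ^ 2) * nX ^ 2 := by ring
      linarith
    have h9 : κ ^ 2 * nX ^ 2 ≤ κ * nX ^ 2 := by
      have : κ ^ 2 ≤ κ := by nlinarith
      exact mul_le_mul_of_nonneg_right this (sq_nonneg _)
    nlinarith

theorem Nq_sq (p : Site) (a b : ℝ) (hp : 0 < nrm p) (ha : 0 ≤ a) (hb : 0 ≤ b) (x : Site) :
    a * (gdot p x : ℝ) ^ 2 + b * (fdet p x : ℝ) ^ 2 = nrm p ^ 2 * Nq p a b x ^ 2 := by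
  unfold Nq
  rw [div_pow, Real.sq_sqrt (by positivity)]
  field_simp

theorem nrm_pos {p : Site} (hp : p ≠ 0) : 0 < nrm p := by
  refine Real.sqrt_pos.2 ?_
  rw [nsq_cast]
  by_contra h
  push Not at h
  have h1 : (p.1 : ℝ) ^ 2 = 0 := le_antisymm (by nlinarith [sq_nonneg (p.2 : ℝ)]) (sq_nonneg _)
  have h2 : (p.2 : ℝ) ^ 2 = 0 := le_antisymm (by nlinarith [sq_nonneg (p.1 : ℝ)]) (sq_nonneg _)
  apply hp
  have h3 : (p.1 : ℝ) = 0 := by simpa using h1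
  have h4 : (p.2 : ℝ) = 0 := by simpa using h2
  exact Prod.ext (by exact_mod_cast h3) (by exact_mod_cast h4)

theorem fin1 (α β κ A' u w nX : ℝ) (hα : 0 < α) (hβ : 0 < β) (hA' : 0 < A')
    (hw : α ^ 2 * w ≤ 2 * κ * nX ^ 2) (hκA : κ ≤ (α / (200 * A' * β)) ^ 2)
    (hN : nX ^ 2 ≤ (β * (10 * (A' * u))) ^ 2) : w ≤ u ^ 2 / 200 := by
  have h1 : α ^ 2 * w ≤ 2 * (α / (200 * A' * β)) ^ 2 * (β * (10 * (A' * u))) ^ 2 :=
    hw.trans (mul_le_mul (mul_le_mul_of_nonneg_left hκA (by norm_num)) hN (sq_nonneg _)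
      (by positivity))
  have h2 : 2 * (α / (200 * A' * β)) ^ 2 * (β * (10 * (A' * u))) ^ 2 =
      α ^ 2 * (u ^ 2 / 200) := by
    field_simp
    ring
  rw [h2] at h1
  exact le_of_mul_le_mul_left h1 (by positivity)

theorem fin2 (d1 d2 W1 W2 v u : ℝ) (hd : d1 ^ 2 + d2 ^ 2 ≤ v ^ 2) (hv : v ^ 2 ≤ (u / 8) ^ 2)
    (hW : W1 ^ 2 + W2 ^ 2 ≤ u ^ 2 / 200) : (d1 + W1) ^ 2 + (d2 + W2) ^ 2 ≤ (u / 2) ^ 2 := by
  nlinarith [sq_nonneg (d1 - W1), sq_nonneg (d2 - W2), sq_nonneg u]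

set_option maxHeartbeats 4000000 in
/-- B1: almost straight paths -/
theorem pf_B1 (hDM : Z_DM) (hNQ : B_NQ) : B_B1 := by
  intro R J hJ h p a b a' b' α β θ κ φ A A' u v hp hα hαβ haα haβ hbα hbβ ha' hb' hθ hθ1 hκ hκ1
    hφ hF hG hA hA' hAθ hAκ hκA hAv hv hgood k x hx hin hx0 hX hk
  have hβ : 0 < β := lt_of_lt_of_le hα hαβ
  obtain ⟨hN, -, -⟩ := hNQ p a b α β hp hα hβ haα haβ hbα hbβ
  have hnp := nrm_pos hp
  have hm : 8 * v ≤ A' * u := by
    have h1 : v ≤ u := le_trans (Nat.le_mul_of_pos_left v (by omega)) hAv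
    exact Nat.mul_le_mul hA' h1
  have hch := chain hDM hJ h (Nq p a b) α β hN v (A' * u) hv hm hgood k x hx hin
  set X := x k - x 0 with hXdef
  have hv' : (0 : ℝ) < v := by exact_mod_cast (by omega : 0 < v)
  have hAv' : (A : ℝ) * v ≤ u := by exact_mod_cast hAv
  have hA'' : (8 : ℝ) ≤ A := by exact_mod_cast hA
  have hA''' : (8 : ℝ) ≤ A' := by exact_mod_cast hA'
  have h8v : (8 : ℝ) * v ≤ A * v := mul_le_mul_of_nonneg_right hA'' hv'.le
  have hu0 : (0 : ℝ) < u := by linarith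
  have hXn : (A' : ℝ) * u ≤ nrm X := by
    refine (sq_le_sq₀ (by positivity) (nrm_nonneg _)).1 ?_
    rw [nrm_sq]
    have : (((A' * u : ℕ) : ℤ) ^ 2 : ℤ) ≤ nsq X := hX
    have h2 : ((((A' * u : ℕ) : ℤ) ^ 2 : ℤ) : ℝ) ≤ (nsq X : ℝ) := by exact_mod_cast this
    push_cast at h2
    exact h2
  have hNX : α * (A' * u) ≤ Nq p a b X :=
    (mul_le_mul_of_nonneg_left hXn hα.le).trans (hN.2.2 X).1
  have hNX0 : 0 < Nq p a b X := lt_of_lt_of_le (by positivity) hNX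
  -- `β v` is small
  have hsmall : ∀ c : ℝ, 0 < c → β / α ≤ A * A' * c → β * v ≤ c * Nq p a b X := by
    intro c hc h1
    rw [div_le_iff₀ hα] at h1
    calc β * v ≤ (A * A' * c * α) * v := mul_le_mul_of_nonneg_right h1 hv'.le
      _ = (A * v) * (A' * c * α) := by ring
      _ ≤ u * (A' * c * α) := mul_le_mul_of_nonneg_right hAv' (by positivity)
      _ = c * (α * (A' * u)) := by ring
      _ ≤ c * Nq p a b X := mul_le_mul_of_nonneg_left hNX hc.le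
  have hbv1 := hsmall θ hθ hAθ
  have hbv2 := hsmall κ hκ hAκ
  -- the rest of a chain
  have hrest : ∀ i, i ≤ k → Nq p a b (x k - x i) ≤ β * v + (k - i) := by
    intro i hi
    obtain ⟨j, j1, j2, j3, j4⟩ := hch (k - i) i k rfl hi le_rfl
    have h1 := hN.1 (x k - x j) (x j - x i)
    rw [sub_add_sub_cancel] at h1
    have h2 := (hN.2.2 (x k - x j)).2
    have h3 : β * nrm (x k - x j) ≤ β * v := mul_le_mul_of_nonneg_left j3.le hβ.le
    have h4 : (j : ℝ) ≤ k := by exact_mod_cast j2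
    linarith
  refine ⟨?_, ?_⟩
  · by_contra hcon
    push Not at hcon
    have h1 := hF X hcon
    have h2 := hrest 0 (Nat.zero_le _)
    rw [← hXdef] at h2
    push_cast at h2
    linarith
  · intro i hi
    obtain ⟨j, -, j2, j3, j4⟩ := hch (i - 0) 0 i rfl (Nat.zero_le _) hi
    have hjk : j ≤ k := j2.trans hi
    have hZ := hrest j hjk
    push_cast at j4
    rw [sub_zero] at j4
    have hG' := hG X
    have hYZ : Nq p a b (x j - x 0) + Nq p a b (x k - x j) ≤ (1 + 2 * κ) * Nq p a b X := by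
      linarith
    have hY0 : 0 ≤ Nq p a b (x j - x 0) :=
      (mul_nonneg hα.le (nrm_nonneg _)).trans (hN.2.2 _).1
    have hZ0 : 0 ≤ Nq p a b (x k - x j) :=
      (mul_nonneg hα.le (nrm_nonneg _)).trans (hN.2.2 _).1
    have hsub := hN.1 (x j - x 0) (x k - x j)
    have hXe : (x j - x 0) + (x k - x j) = X := by rw [hXdef]; abel
    rw [hXe] at hsub
    obtain ⟨t, ht0, ht1, ht⟩ := chord2 _ _ _ κ hY0 hZ0 hNX0 hsub hκ hκ1 hYZ
    have ha0 : 0 ≤ a := (sq_nonneg α).trans haα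
    have hb0 : 0 ≤ b := (sq_nonneg α).trans hbα
    have e1 := Nq_sq p a b hnp ha0 hb0 (x j - x 0)
    have e2 := Nq_sq p a b hnp ha0 hb0 (x k - x j)
    have e3 := Nq_sq p a b hnp ha0 hb0 X
    have eg : (gdot p X : ℝ) = (gdot p (x j - x 0) : ℝ) + (gdot p (x k - x j) : ℝ) := by
      rw [← hXe]
      unfold gdot
      simp only [Prod.fst_add, Prod.snd_add]
      push_cast
      ring
    have ef : (fdet p X : ℝ) = (fdet p (x j - x 0) : ℝ) + (fdet p (x k - x j) : ℝ) := by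
      rw [← hXe]
      unfold fdet
      simp only [Prod.fst_add, Prod.snd_add]
      push_cast
      ring
    rw [eg, ef] at e3
    -- the vector from the chord to `x j`
    set W1 : ℝ := ((x j - x 0).1 : ℝ) - t * (X.1 : ℝ) with hW1
    set W2 : ℝ := ((x j - x 0).2 : ℝ) - t * (X.2 : ℝ) with hW2
    have hw : ((gdot p (x j - x 0) : ℝ) - t * ((gdot p (x j - x 0) : ℝ) + (gdot p (x k - x j) : ℝ))) ^ 2 +
        ((fdet p (x j - x 0) : ℝ) - t * ((fdet p (x j - x 0) : ℝ) + (fdet p (x k - x j) : ℝ))) ^ 2 =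
        nrm p ^ 2 * (W1 ^ 2 + W2 ^ 2) := by
      rw [← eg, ← ef, nrm_sq, nsq_cast, hW1, hW2]
      unfold gdot fdet
      push_cast
      ring
    have hc := chord α a b _ _ _ _ t _ _ _ (nrm p ^ 2) (by positivity) e1 e2 e3 (W1 ^ 2 + W2 ^ 2)
      haα hbα hw
    have hXle : nrm X ≤ 10 * (A' * u) := by
      have h1 := nrm_sub (x k) 0 (x 0)
      rw [sub_zero, zero_sub, nrm_neg] at h1
      have h2 := (mem_eb 0 (x k) _).1 (hin k le_rfl)
      have h3 := (mem_eb 0 (x 0) _).1 hx0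
      rw [sub_zero] at h2 h3
      push_cast at h2 h3
      rw [hXdef]
      linarith
    have hNXle : Nq p a b X ≤ β * (10 * (A' * u)) :=
      (hN.2.2 X).2.trans (mul_le_mul_of_nonneg_left hXle hβ.le)
    have hNX2 : Nq p a b X ^ 2 ≤ (β * (10 * (A' * u))) ^ 2 := pow_le_pow_left₀ hNX0.le hNXle 2
    have hWle : W1 ^ 2 + W2 ^ 2 ≤ (u : ℝ) ^ 2 / 200 :=
      fin1 α β κ A' u (W1 ^ 2 + W2 ^ 2) _ hα hβ (by linarith) (hc.trans ht) hκA hNX2
    refine ⟨t, ht0, ht1, ?_⟩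
    have hd : ((x i - x j).1 : ℝ) ^ 2 + ((x i - x j).2 : ℝ) ^ 2 ≤ (v : ℝ) ^ 2 := by
      rw [← nsq_cast, ← nrm_sq]
      exact pow_le_pow_left₀ (nrm_nonneg _) j3.le 2
    have hvu : (v : ℝ) ≤ u / 8 := by linarith
    have hv2 : (v : ℝ) ^ 2 ≤ (u / 8) ^ 2 := pow_le_pow_left₀ hv'.le hvu 2
    have c1 : ((x i).1 : ℝ) - (((x 0).1 : ℝ) + t * (((x k).1 : ℝ) - ((x 0).1 : ℝ))) =
        ((x i - x j).1 : ℝ) + W1 := by
      rw [hW1, hXdef]
      simp only [Prod.fst_sub]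
      push_cast
      ring
    have c2 : ((x i).2 : ℝ) - (((x 0).2 : ℝ) + t * (((x k).2 : ℝ) - ((x 0).2 : ℝ))) =
        ((x i - x j).2 : ℝ) + W2 := by
      rw [hW2, hXdef]
      simp only [Prod.snd_sub]
      push_cast
      ring
    rw [c1, c2]
    exact fin2 _ _ _ _ _ _ hd hv2 hWle

end Pool.Agent.H10.RFZ
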