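import Pool.Agent.H98.RFZ.Targets3
import Pool.Agent.H10.RFZ.B1

/-!
# Four crossed tubes make a shield (row QRNG of the board rfz, helper10)
-/

set_option autoImplicit false

namespace Pool.Agent.H10.RFZ

open Pool.Agent.H98.RFC Pool.Agent.H98.RFZ

theorem tri_neg {z : Site} (h : Tri z) : Tri (-z) := by
  unfold Tri at h ⊢
  rcases h with rfl | rfl | rfl | rfl | rfl | rfl | rfl <;> simp

theorem tri_swap {z : Site} (h : Tri z) : Tri (z.2, z.1) := by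
  unfold Tri at h ⊢
  rcases h with rfl | rfl | rfl | rfl | rfl | rfl | rfl <;> simp

theorem tri_nrm {z : Site} (h : Tri z) : nrm z ≤ 2 := by
  have h1 : (2 : ℝ) = ((2 : ℕ) : ℝ) := by norm_num
  rw [h1, nrm_le_iff]
  unfold nsq
  unfold Tri at h
  rcases h with rfl | rfl | rfl | rfl | rfl | rfl | rfl <;> norm_num

theorem rev_tri (k : ℕ) (x : ℕ → Site) (hx : ∀ i, i < k → Tri (x (i + 1) - x i)) :
    ∀ i, i < k → Tri (x (k - (i + 1)) - x (k - i)) := by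
  intro i hi
  have h := hx (k - (i + 1)) (by omega)
  have e : k - (i + 1) + 1 = k - i := by omega
  rw [e] at h
  have := tri_neg h
  rwa [neg_sub] at this

theorem meet1 (hPAR : Q_PAR) (v : Site) (hv : 0 < v.1) (k l : ℕ) (x y : ℕ → Site)
    (hx : ∀ i, i < k → Tri (x (i + 1) - x i)) (hy : ∀ i, i < l → Tri (y (i + 1) - y i))
    (hc : ∀ j, j ≤ l → (x 0).1 < (y j).1 ∧ (y j).1 < (x k).1)
    (h0 : ∀ i, i ≤ k → fdet v (y 0) < fdet v (x i))
    (h1 : ∀ i, i ≤ k → fdet v (x i) < fdet v (y l)) : ∃ i j, i ≤ k ∧ j ≤ l ∧ x i = y j := by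
  refine hPAR k l x y hx hy hc ?_ ?_
  · intro i hi he
    have := h0 i hi
    unfold fdet at this
    rw [he] at this
    have h2 : v.1 * (y 0).2 < v.1 * (x i).2 := by linarith
    exact lt_of_mul_lt_mul_left h2 hv.le
  · intro i hi he
    have := h1 i hi
    unfold fdet at this
    rw [he] at this
    have h2 : v.1 * (x i).2 < v.1 * (y l).2 := by linarith
    exact lt_of_mul_lt_mul_left h2 hv.le

theorem meet2 (hPAR : Q_PAR) (v : Site) (hv : 0 < v.1) (k l : ℕ) (x y : ℕ → Site)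
    (hx : ∀ i, i < k → Tri (x (i + 1) - x i)) (hy : ∀ i, i < l → Tri (y (i + 1) - y i))
    (hc : ∀ j, j ≤ l → (x 0).1 < (y j).1 ∧ (y j).1 < (x k).1)
    (h0 : ∀ i, i ≤ k → fdet v (x i) < fdet v (y 0))
    (h1 : ∀ i, i ≤ k → fdet v (y l) < fdet v (x i)) : ∃ i j, i ≤ k ∧ j ≤ l ∧ x i = y j := by
  obtain ⟨i, j, hi, hj, h⟩ := meet1 hPAR v hv k l x (fun j => y (l - j)) hx (rev_tri l y hy)
    (fun j hj => hc (l - j) (Nat.sub_le _ _)) (fun i hi => by simpa using h1 i hi)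
    (fun i hi => by simpa using h0 i hi)
  exact ⟨i, l - j, hi, Nat.sub_le _ _, h⟩

theorem fdet_neg (v x : Site) : fdet (-v) x = -fdet v x := by
  unfold fdet
  simp only [Prod.fst_neg, Prod.snd_neg]
  ring

theorem meet3 (hPAR : Q_PAR) (v : Site) (hv : v.1 ≠ 0) (s : ℤ) (hs : s = 1 ∨ s = -1) (k l : ℕ)
    (x y : ℕ → Site)
    (hx : ∀ i, i < k → Tri (x (i + 1) - x i)) (hy : ∀ i, i < l → Tri (y (i + 1) - y i))
    (hc : ∀ j, j ≤ l → v.1 * (x 0).1 < v.1 * (y j).1 ∧ v.1 * (y j).1 < v.1 * (x k).1)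
    (h0 : ∀ i, i ≤ k → s * fdet v (y 0) < s * fdet v (x i))
    (h1 : ∀ i, i ≤ k → s * fdet v (x i) < s * fdet v (y l)) :
    ∃ i j, i ≤ k ∧ j ≤ l ∧ x i = y j := by
  rcases lt_or_gt_of_ne hv with hv | hv
  · have hc' : ∀ j, j ≤ l → (x k).1 < (y j).1 ∧ (y j).1 < (x 0).1 := by
      intro j hj
      obtain ⟨a1, a2⟩ := hc j hj
      exact ⟨lt_of_mul_lt_mul_of_nonpos_left a2 hv.le, lt_of_mul_lt_mul_of_nonpos_left a1 hv.le⟩
    have hv' : 0 < (-v).1 := by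
      rw [Prod.fst_neg]
      linarith
    rcases hs with rfl | rfl
    · obtain ⟨i, j, hi, hj, h⟩ := meet2 hPAR (-v) hv' k l (fun i => x (k - i)) y
        (rev_tri k x hx) hy (fun j hj => by simpa using hc' j hj)
        (fun i hi => by
          have := h0 (k - i) (Nat.sub_le _ _)
          rw [fdet_neg, fdet_neg]
          linarith)
        (fun i hi => by
          have := h1 (k - i) (Nat.sub_le _ _)
          rw [fdet_neg, fdet_neg]
          linarith)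
      exact ⟨k - i, j, Nat.sub_le _ _, hj, h⟩
    · obtain ⟨i, j, hi, hj, h⟩ := meet1 hPAR (-v) hv' k l (fun i => x (k - i)) y
        (rev_tri k x hx) hy (fun j hj => by simpa using hc' j hj)
        (fun i hi => by
          have := h0 (k - i) (Nat.sub_le _ _)
          rw [fdet_neg, fdet_neg]
          linarith)
        (fun i hi => by
          have := h1 (k - i) (Nat.sub_le _ _)
          rw [fdet_neg, fdet_neg]
          linarith)
      exact ⟨k - i, j, Nat.sub_le _ _, hj, h⟩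
  · have hc' : ∀ j, j ≤ l → (x 0).1 < (y j).1 ∧ (y j).1 < (x k).1 := by
      intro j hj
      obtain ⟨a1, a2⟩ := hc j hj
      exact ⟨lt_of_mul_lt_mul_left a1 hv.le, lt_of_mul_lt_mul_left a2 hv.le⟩
    rcases hs with rfl | rfl
    · exact meet1 hPAR v hv k l x y hx hy hc' (fun i hi => by simpa using h0 i hi)
        (fun i hi => by simpa using h1 i hi)
    · exact meet2 hPAR v hv k l x y hx hy hc'
        (fun i hi => by have := h0 i hi; linarith) (fun i hi => by have := h1 i hi; linarith)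

theorem meet4 (hPAR : Q_PAR) (v : Site) (hv : v.2 ≠ 0) (s : ℤ) (hs : s = 1 ∨ s = -1) (k l : ℕ)
    (x y : ℕ → Site)
    (hx : ∀ i, i < k → Tri (x (i + 1) - x i)) (hy : ∀ i, i < l → Tri (y (i + 1) - y i))
    (hc : ∀ j, j ≤ l → v.2 * (x 0).2 < v.2 * (y j).2 ∧ v.2 * (y j).2 < v.2 * (x k).2)
    (h0 : ∀ i, i ≤ k → s * fdet v (y 0) < s * fdet v (x i))
    (h1 : ∀ i, i ≤ k → s * fdet v (x i) < s * fdet v (y l)) :
    ∃ i j, i ≤ k ∧ j ≤ l ∧ x i = y j := by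
  have hf : ∀ w : Site, fdet (v.2, v.1) (w.2, w.1) = -fdet v w := by
    intro w
    unfold fdet
    ring
  have hsw : ∀ a b : Site, Tri (a - b) → Tri ((a.2, a.1) - (b.2, b.1)) := by
    intro a b h
    exact tri_swap h
  obtain ⟨i, j, hi, hj, h⟩ := meet3 hPAR (v.2, v.1) hv (-s)
    (by rcases hs with rfl | rfl <;> simp) k l
    (fun i => ((x i).2, (x i).1)) (fun i => ((y i).2, (y i).1))
    (fun i hi => hsw _ _ (hx i hi)) (fun i hi => hsw _ _ (hy i hi)) hc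
    (fun i hi => by
      have := h0 i hi
      rw [hf, hf]
      linarith)
    (fun i hi => by
      have := h1 i hi
      rw [hf, hf]
      linarith)
  refine ⟨i, j, hi, hj, ?_⟩
  have h2 := congrArg Prod.fst h
  have h3 := congrArg Prod.snd h
  exact Prod.ext h3 h2

/-! ## Geometry -/

/-- the start point of a tube -/
def St (v z : Site) (u : ℕ) (s : ℤ) (y : Site) : Prop :=
  ∃ e1 e2 c1 c2 : ℝ, |e1| ≤ 1 / 2 ∧ |e2| ≤ 1 / 2 ∧ c1 ^ 2 + c2 ^ 2 = 1 ∧
    (v.1 : ℝ) = nrm v * c1 ∧ (v.2 : ℝ) = nrm v * c2 ∧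
    (y.1 : ℝ) = z.1 - s * (20 * u) * c2 - u * v.1 / 2 + e1 ∧
    (y.2 : ℝ) = z.2 + s * (20 * u) * c1 - u * v.2 / 2 + e2

theorem st_ex (v z : Site) (hv : 0 < nrm v) (u : ℕ) (s : ℤ) : ∃ y, St v z u s y := by
  have h1 := nrm_sq v
  rw [nsq_cast] at h1
  refine ⟨(round ((z.1 : ℝ) - s * (20 * u) * (v.2 / nrm v) - u * v.1 / 2),
    round ((z.2 : ℝ) + s * (20 * u) * (v.1 / nrm v) - u * v.2 / 2)),
    (round ((z.1 : ℝ) - s * (20 * u) * (v.2 / nrm v) - u * v.1 / 2) : ℝ) -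
      ((z.1 : ℝ) - s * (20 * u) * (v.2 / nrm v) - u * v.1 / 2),
    (round ((z.2 : ℝ) + s * (20 * u) * (v.1 / nrm v) - u * v.2 / 2) : ℝ) -
      ((z.2 : ℝ) + s * (20 * u) * (v.1 / nrm v) - u * v.2 / 2),
    v.1 / nrm v, v.2 / nrm v, ?_, ?_, ?_, ?_, ?_, ?_, ?_⟩
  · rw [abs_sub_comm]
    exact abs_sub_round _
  · rw [abs_sub_comm]
    exact abs_sub_round _
  · rw [div_pow, div_pow, ← add_div, ← h1]
    exact div_self (by positivity)
  · field_simp
  · field_simp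
  · show ((round _ : ℤ) : ℝ) = _
    ring
  · show ((round _ : ℤ) : ℝ) = _
    ring

/-- Cauchy-Schwarz -/
theorem csr (a b c d L r : ℝ) (hL : a ^ 2 + b ^ 2 = L ^ 2) (hr : c ^ 2 + d ^ 2 ≤ r ^ 2)
    (hL0 : 0 ≤ L) (hr0 : 0 ≤ r) : |a * d - b * c| ≤ L * r := by
  refine abs_le_of_sq_le_sq ?_ (mul_nonneg hL0 hr0)
  have h1 : (a * d - b * c) ^ 2 ≤ (a ^ 2 + b ^ 2) * (c ^ 2 + d ^ 2) := by
    nlinarith [sq_nonneg (a * c + b * d)]
  rw [hL] at h1
  rw [mul_pow]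
  exact h1.trans (mul_le_mul_of_nonneg_left hr (sq_nonneg L))

theorem fdet_le (v x : Site) : |(fdet v x : ℝ)| ≤ nrm v * nrm x := by
  have h1 := nrm_sq v
  have h2 := nrm_sq x
  rw [nsq_cast] at h1 h2
  have := csr v.1 v.2 x.1 x.2 (nrm v) (nrm x) h1.symm h2.symm.le (nrm_nonneg _) (nrm_nonneg _)
  unfold fdet
  push_cast
  exact this

set_option maxHeartbeats 4000000 in
/-- coordinates of the points of a tube -/
theorem tube_pt (v z y x : Site) (u : ℕ) (hu : 100 ≤ u) (s : ℤ) (hs : s = 1 ∨ s = -1)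
    (hy : St v z u s y) (hx : nearSeg y (y + sm u v) x (2 * u)) :
    17 * u * nrm v ≤ s * (fdet v (x - z) : ℝ) ∧ s * (fdet v (x - z) : ℝ) ≤ 23 * u * nrm v ∧
      nrm (x - z) ≤ 50 * u + 3 / 4 * u * nrm v := by
  obtain ⟨e1, e2, c1, c2, he1, he2, hc, hv1, hv2, hy1, hy2⟩ := hy
  obtain ⟨t, ht0, ht1, ht⟩ := hx
  have hu' : (100 : ℝ) ≤ u := by exact_mod_cast hu
  have hL := nrm_nonneg v
  simp only [Prod.fst_add, Prod.snd_add, sm] at ht
  push_cast at ht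
  set d1 : ℝ := (x.1 : ℝ) - ((y.1 : ℝ) + t * ((y.1 : ℝ) + u * v.1 - y.1)) with hd1
  set d2 : ℝ := (x.2 : ℝ) - ((y.2 : ℝ) + t * ((y.2 : ℝ) + u * v.2 - y.2)) with hd2
  have hx1 : (x.1 : ℝ) - z.1 = -(s * (20 * u) * c2) + (t - 1 / 2) * (u * v.1) + e1 + d1 := by
    rw [hd1, hy1]; ring
  have hx2 : (x.2 : ℝ) - z.2 = s * (20 * u) * c1 + (t - 1 / 2) * (u * v.2) + e2 + d2 := by
    rw [hd2, hy2]; ring
  have hs2 : (s : ℝ) * s = 1 := by rcases hs with rfl | rfl <;> norm_num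
  have hsa : |(s : ℝ)| = 1 := by rcases hs with rfl | rfl <;> norm_num
  have hfd : s * (fdet v (x - z) : ℝ) =
      nrm v * (20 * u + s * (c1 * e2 - c2 * e1) + s * (c1 * d2 - c2 * d1)) := by
    have h1 : (fdet v (x - z) : ℝ) = v.1 * ((x.2 : ℝ) - z.2) - v.2 * ((x.1 : ℝ) - z.1) := by
      unfold fdet
      simp only [Prod.fst_sub, Prod.snd_sub]
      push_cast
      ring
    rw [h1, hx1, hx2]
    have h2 : v.1 * (s * (20 * u) * c1 + (t - 1 / 2) * (u * v.2) + e2 + d2) -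
        v.2 * (-(s * (20 * u) * c2) + (t - 1 / 2) * (u * v.1) + e1 + d1) =
        v.1 * (s * (20 * u) * c1 + e2 + d2) - v.2 * (-(s * (20 * u) * c2) + e1 + d1) := by
      ring
    rw [h2, hv1, hv2]
    linear_combination (20 * u * nrm v * s * s) * hc + (20 * u * nrm v) * hs2
  have hb1 : |c1 * e2 - c2 * e1| ≤ 1 * 1 := by
    refine csr c1 c2 e1 e2 1 1 (by rw [hc]; norm_num) ?_ (by norm_num) (by norm_num)
    have h1 := pow_le_pow_left₀ (abs_nonneg _) he1 2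
    have h2 := pow_le_pow_left₀ (abs_nonneg _) he2 2
    rw [sq_abs] at h1 h2
    linarith
  have hb2 : |c1 * d2 - c2 * d1| ≤ 1 * (2 * u) :=
    csr c1 c2 d1 d2 1 (2 * u) (by rw [hc]; norm_num) ht (by norm_num) (by positivity)
  have hb3 : |s * (c1 * e2 - c2 * e1)| ≤ 1 := by
    rw [abs_mul, hsa, one_mul]
    linarith
  have hb4 : |s * (c1 * d2 - c2 * d1)| ≤ 2 * u := by
    rw [abs_mul, hsa, one_mul]
    linarith
  rw [abs_le] at hb3 hb4
  have hc1 : |c1| ≤ 1 := abs_le_of_sq_le_sq (by linarith [sq_nonneg c2]) (by norm_num)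
  have hc2 : |c2| ≤ 1 := abs_le_of_sq_le_sq (by linarith [sq_nonneg c1]) (by norm_num)
  have hd1' : |d1| ≤ 2 * u := abs_le_of_sq_le_sq (by linarith [sq_nonneg d2]) (by positivity)
  have hd2' : |d2| ≤ 2 * u := abs_le_of_sq_le_sq (by linarith [sq_nonneg d1]) (by positivity)
  refine ⟨?_, ?_, ?_⟩
  · rw [hfd, mul_comm]
    refine mul_le_mul_of_nonneg_left ?_ hL
    linarith [hb3.1, hb4.1]
  · rw [hfd, mul_comm (23 * (u : ℝ))]
    refine mul_le_mul_of_nonneg_left ?_ hL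
    linarith [hb3.2, hb4.2]
  · have ht' : |t - 1 / 2| ≤ 1 / 2 := by
      rw [abs_le]
      constructor <;> linarith
    have hL2 := nrm_sq v
    rw [nsq_cast] at hL2
    have hsum : |(v.1 : ℝ)| + |(v.2 : ℝ)| ≤ 3 / 2 * nrm v := by
      refine (sq_le_sq₀ (by positivity) (by positivity)).1 ?_
      have h1 := sq_abs (v.1 : ℝ)
      have h2 := sq_abs (v.2 : ℝ)
      linarith [sq_nonneg (|(v.1 : ℝ)| - |(v.2 : ℝ)|), sq_nonneg (nrm v)]
    have k1 : |(x.1 : ℝ) - z.1| ≤ 20 * u + 1 / 2 * (u * |(v.1 : ℝ)|) + 1 / 2 + 2 * u := by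
      rw [hx1]
      refine (abs_add_le _ _).trans (add_le_add ((abs_add_le _ _).trans
        (add_le_add ((abs_add_le _ _).trans (add_le_add ?_ ?_)) he1)) hd1')
      · rw [abs_neg, abs_mul, abs_mul, hsa, one_mul, abs_of_nonneg (by positivity : (0 : ℝ) ≤ 20 * u)]
        exact mul_le_of_le_one_right (by positivity) hc2
      · rw [abs_mul, abs_mul, abs_of_nonneg (by positivity : (0 : ℝ) ≤ u)]
        exact mul_le_mul_of_nonneg_right ht' (by positivity)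
    have k2 : |(x.2 : ℝ) - z.2| ≤ 20 * u + 1 / 2 * (u * |(v.2 : ℝ)|) + 1 / 2 + 2 * u := by
      rw [hx2]
      refine (abs_add_le _ _).trans (add_le_add ((abs_add_le _ _).trans
        (add_le_add ((abs_add_le _ _).trans (add_le_add ?_ ?_)) he2)) hd2')
      · rw [abs_mul, abs_mul, hsa, one_mul, abs_of_nonneg (by positivity : (0 : ℝ) ≤ 20 * u)]
        exact mul_le_of_le_one_right (by positivity) hc1
      · rw [abs_mul, abs_mul, abs_of_nonneg (by positivity : (0 : ℝ) ≤ u)]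
        exact mul_le_mul_of_nonneg_right ht' (by positivity)
    have k3 : nrm (x - z) ≤ |(x.1 : ℝ) - z.1| + |(x.2 : ℝ) - z.2| := by
      refine (sq_le_sq₀ (nrm_nonneg _) (by positivity)).1 ?_
      rw [nrm_sq, nsq_cast]
      simp only [Prod.fst_sub, Prod.snd_sub]
      push_cast
      have h1 := sq_abs ((x.1 : ℝ) - z.1)
      have h2 := sq_abs ((x.2 : ℝ) - z.2)
      linarith [mul_nonneg (abs_nonneg ((x.1 : ℝ) - z.1)) (abs_nonneg ((x.2 : ℝ) - z.2))]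
    have k4 : (u : ℝ) * (|(v.1 : ℝ)| + |(v.2 : ℝ)|) ≤ u * (3 / 2 * nrm v) :=
      mul_le_mul_of_nonneg_left hsum (by positivity)
    linarith

/-- coordinates of the ends of a crossing -/
theorem tube_end (v z y x : Site) (u : ℕ) (hu : 100 ≤ u) (s : ℤ) (hs : s = 1 ∨ s = -1)
    (hy : St v z u s y) :
    (x ∈ eb y (2 * u) → |((x.1 : ℝ) - z.1) + u * v.1 / 2| ≤ 23 * u ∧
      |((x.2 : ℝ) - z.2) + u * v.2 / 2| ≤ 23 * u) ∧
    (x ∈ eb (y + sm u v) (2 * u) → |((x.1 : ℝ) - z.1) - u * v.1 / 2| ≤ 23 * u ∧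
      |((x.2 : ℝ) - z.2) - u * v.2 / 2| ≤ 23 * u) := by
  obtain ⟨e1, e2, c1, c2, he1, he2, hc, hv1, hv2, hy1, hy2⟩ := hy
  have hu' : (100 : ℝ) ≤ u := by exact_mod_cast hu
  have hc1 : |c1| ≤ 1 := abs_le_of_sq_le_sq (by linarith [sq_nonneg c2]) (by norm_num)
  have hc2 : |c2| ≤ 1 := abs_le_of_sq_le_sq (by linarith [sq_nonneg c1]) (by norm_num)
  have hsa : |(s : ℝ)| = 1 := by rcases hs with rfl | rfl <;> norm_num
  have g1 : |s * (20 * u) * c1| ≤ 20 * u := by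
    rw [abs_mul, abs_mul, hsa, one_mul, abs_of_nonneg (by positivity : (0 : ℝ) ≤ 20 * u)]
    exact mul_le_of_le_one_right (by positivity) hc1
  have g2 : |s * (20 * u) * c2| ≤ 20 * u := by
    rw [abs_mul, abs_mul, hsa, one_mul, abs_of_nonneg (by positivity : (0 : ℝ) ≤ 20 * u)]
    exact mul_le_of_le_one_right (by positivity) hc2
  have key : ∀ w : Site, x ∈ eb w (2 * u) → |(x.1 : ℝ) - w.1| ≤ 2 * u ∧
      |(x.2 : ℝ) - w.2| ≤ 2 * u := by
    intro w hw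
    have h1 := (mem_eb w x (2 * u)).1 hw
    have h2 := nrm_sq (x - w)
    rw [nsq_cast] at h2
    simp only [Prod.fst_sub, Prod.snd_sub] at h2
    push_cast at h1 h2
    have h3 := pow_le_pow_left₀ (nrm_nonneg _) h1 2
    constructor
    · exact abs_le_of_sq_le_sq (by linarith [sq_nonneg ((x.2 : ℝ) - w.2)]) (by positivity)
    · exact abs_le_of_sq_le_sq (by linarith [sq_nonneg ((x.1 : ℝ) - w.1)]) (by positivity)
  rw [abs_le] at g1 g2 he1 he2
  constructor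
  · intro h
    obtain ⟨k1, k2⟩ := key y h
    rw [abs_le] at k1 k2
    rw [hy1] at k1
    rw [hy2] at k2
    constructor <;> rw [abs_le] <;> constructor <;>
      linarith [k1.1, k1.2, k2.1, k2.2, g1.1, g1.2, g2.1, g2.2, he1.1, he1.2, he2.1, he2.2]
  · intro h
    obtain ⟨k1, k2⟩ := key _ h
    simp only [Prod.fst_add, Prod.snd_add, sm] at k1 k2
    push_cast at k1 k2
    rw [abs_le] at k1 k2
    rw [hy1] at k1
    rw [hy2] at k2
    constructor <;> rw [abs_le] <;> constructor <;>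
      linarith [k1.1, k1.2, k2.1, k2.2, g1.1, g1.2, g2.1, g2.2, he1.1, he1.2, he2.1, he2.2]

/-- the parallelogram is bounded -/
theorem para (v1 v2 W : Site) (φ u : ℝ) (hφ : 0 < φ) (hφ1 : φ ≤ 1) (hu : 0 ≤ u)
    (h1 : 0 < nrm v1) (h2 : 0 < nrm v2)
    (hdet : φ * |(gdot v1 v2 : ℝ)| ≤ |(fdet v1 v2 : ℝ)|)
    (hd1 : |(fdet v1 W : ℝ)| ≤ 24 * u * nrm v1) (hd2 : |(fdet v2 W : ℝ)| ≤ 24 * u * nrm v2) :
    nrm W ≤ 68 * u / φ := by
  rw [le_div_iff₀ hφ]
  have n1 := nrm_sq v1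
  have n2 := nrm_sq v2
  have n3 := nrm_sq W
  rw [nsq_cast] at n1 n2 n3
  have hFG : (fdet v1 v2 : ℝ) ^ 2 + (gdot v1 v2 : ℝ) ^ 2 = (nrm v1 * nrm v2) ^ 2 := by
    rw [mul_pow, n1, n2]
    unfold fdet gdot
    push_cast
    ring
  have hFW : (fdet v1 v2 : ℝ) ^ 2 * nrm W ^ 2 = (fdet v1 W : ℝ) ^ 2 * nrm v2 ^ 2 +
      (fdet v2 W : ℝ) ^ 2 * nrm v1 ^ 2 - 2 * (fdet v1 W : ℝ) * (fdet v2 W : ℝ) * (gdot v1 v2 : ℝ) := by
    rw [n1, n2, n3]
    unfold fdet gdot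
    push_cast
    ring
  generalize (fdet v1 v2 : ℝ) = F at *
  generalize (gdot v1 v2 : ℝ) = G at *
  generalize (fdet v1 W : ℝ) = d1 at *
  generalize (fdet v2 W : ℝ) = d2 at *
  have hW0 := nrm_nonneg W
  generalize nrm W = w at *
  generalize nrm v1 = A at *
  generalize nrm v2 = B at *
  clear n1 n2 n3
  have hAB : 0 < A * B := mul_pos h1 h2
  -- `2 F ^ 2 ≥ φ ^ 2 (A B) ^ 2`
  have hF : φ ^ 2 * (A * B) ^ 2 ≤ 2 * F ^ 2 := by
    have h3 := pow_le_pow_left₀ (by positivity) hdet 2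
    rw [mul_pow, sq_abs, sq_abs] at h3
    have h4 : φ ^ 2 ≤ 1 := by nlinarith
    have h5 : φ ^ 2 * F ^ 2 ≤ 1 * F ^ 2 := mul_le_mul_of_nonneg_right h4 (sq_nonneg _)
    rw [← hFG]
    nlinarith
  have hG : |G| ≤ A * B := abs_le_of_sq_le_sq (by nlinarith [sq_nonneg F]) hAB.le
  have hup : F ^ 2 * w ^ 2 ≤ (48 * u * (A * B)) ^ 2 := by
    rw [hFW]
    have h3 : d1 ^ 2 * B ^ 2 + d2 ^ 2 * A ^ 2 - 2 * d1 * d2 * G ≤ (|d1| * B + |d2| * A) ^ 2 := by
      have h4 : -(d1 * d2 * G) ≤ |d1| * |d2| * (A * B) := by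
        refine (neg_le_abs _).trans ?_
        rw [abs_mul, abs_mul]
        exact mul_le_mul_of_nonneg_left hG (by positivity)
      have h5 := sq_abs d1
      have h6 := sq_abs d2
      calc d1 ^ 2 * B ^ 2 + d2 ^ 2 * A ^ 2 - 2 * d1 * d2 * G
          = |d1| ^ 2 * B ^ 2 + |d2| ^ 2 * A ^ 2 + 2 * (-(d1 * d2 * G)) := by
            rw [h5, h6]; ring
        _ ≤ |d1| ^ 2 * B ^ 2 + |d2| ^ 2 * A ^ 2 + 2 * (|d1| * |d2| * (A * B)) := by linarith
        _ = (|d1| * B + |d2| * A) ^ 2 := by ring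
    refine h3.trans (pow_le_pow_left₀ (by positivity) ?_ 2)
    have h4 := mul_le_mul_of_nonneg_right hd1 h2.le
    have h5 := mul_le_mul_of_nonneg_right hd2 h1.le
    linarith
  have h3 : (A * B) ^ 2 * (φ * w) ^ 2 ≤ (A * B) ^ 2 * (68 * u) ^ 2 := by
    have h4 : φ ^ 2 * (A * B) ^ 2 * w ^ 2 ≤ 2 * F ^ 2 * w ^ 2 :=
      mul_le_mul_of_nonneg_right hF (sq_nonneg _)
    have h5 : 0 ≤ (u * (A * B)) ^ 2 := sq_nonneg _
    calc (A * B) ^ 2 * (φ * w) ^ 2 = φ ^ 2 * (A * B) ^ 2 * w ^ 2 := by ring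
      _ ≤ 2 * F ^ 2 * w ^ 2 := h4
      _ = 2 * (F ^ 2 * w ^ 2) := by ring
      _ ≤ 2 * (48 * u * (A * B)) ^ 2 := by linarith
      _ ≤ (A * B) ^ 2 * (68 * u) ^ 2 := by nlinarith
  have h4 := le_of_mul_le_mul_left h3 (by positivity)
  have h5 := (sq_le_sq₀ (by positivity) (by positivity)).1 h4
  linarith

/-- columns -/
theorem col (a x0 xk w u r : ℝ) (h0 : |x0 + u * a / 2| ≤ 23 * u) (hk : |xk - u * a / 2| ≤ 23 * u)
    (hw : |w| ≤ r) (ha : 23 * u + r < u * |a| / 2) : a * x0 < a * w ∧ a * w < a * xk := by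
  rw [abs_le] at h0 hk hw
  have hr : 0 ≤ r := by linarith [hw.1, hw.2]
  rcases le_total 0 a with h | h
  · rw [abs_of_nonneg h] at ha
    have ha' : 0 < a := by
      rcases h.lt_or_eq with h1 | h1
      · exact h1
      · exfalso
        rw [← h1] at ha h0
        linarith [h0.1, h0.2]
    exact ⟨mul_lt_mul_of_pos_left (by linarith [h0.2, hw.1]) ha',
      mul_lt_mul_of_pos_left (by linarith [hk.1, hw.2]) ha'⟩
  · rw [abs_of_nonpos h] at ha
    have ha' : a < 0 := by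
      rcases h.lt_or_eq with h1 | h1
      · exact h1
      · exfalso
        rw [h1] at ha h0
        linarith [h0.1, h0.2]
    exact ⟨mul_lt_mul_of_neg_left (by linarith [h0.1, hw.2]) ha',
      mul_lt_mul_of_neg_left (by linarith [hk.2, hw.1]) ha'⟩

theorem invm (M : ℕ) (v : Site) (hM : 2 ≤ M) (hv : InVM M v) :
    (M : ℝ) - 2 ≤ nrm v ∧ nrm v ≤ M + 2 := by
  obtain ⟨h1, h2⟩ := hv
  have hM' : (2 : ℝ) ≤ M := by exact_mod_cast hM
  have h3 : ((M : ℝ) - 2) ^ 2 ≤ (nsq v : ℝ) := by exact_mod_cast h1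
  have h4 : (nsq v : ℝ) ≤ ((M : ℝ) + 2) ^ 2 := by exact_mod_cast h2
  rw [← nrm_sq] at h3 h4
  exact ⟨(sq_le_sq₀ (by linarith) (nrm_nonneg _)).1 h3,
    (sq_le_sq₀ (nrm_nonneg _) (by linarith)).1 h4⟩

theorem fdet_sub (v x y : Site) : fdet v (x - y) = fdet v x - fdet v y := by
  unfold fdet
  simp only [Prod.fst_sub, Prod.snd_sub]
  ring

theorem coord_le (x z : Site) (r : ℝ) (h : nrm (x - z) ≤ r) :
    |(x.1 : ℝ) - z.1| ≤ r ∧ |(x.2 : ℝ) - z.2| ≤ r := by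
  have h2 := nrm_sq (x - z)
  rw [nsq_cast] at h2
  simp only [Prod.fst_sub, Prod.snd_sub] at h2
  push_cast at h2
  have h3 := pow_le_pow_left₀ (nrm_nonneg _) h 2
  have h4 : 0 ≤ r := (nrm_nonneg _).trans h
  constructor
  · exact abs_le_of_sq_le_sq (by linarith [sq_nonneg ((x.2 : ℝ) - z.2)]) h4
  · exact abs_le_of_sq_le_sq (by linarith [sq_nonneg ((x.1 : ℝ) - z.1)]) h4

/-- from real to integral inequalities -/
theorem back (a x y z : ℤ) (h : (a : ℝ) * ((x : ℝ) - z) < a * ((y : ℝ) - z)) : a * x < a * y := by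
  have h1 : (a : ℝ) * x < a * y := by linarith
  exact_mod_cast h1

/-- one tube is hit -/
theorem one (hPAR : Q_PAR) (v z y : Site) (M u : ℕ) (φ : ℝ) (hφ : 0 < φ) (hφ1 : φ ≤ 1)
    (hM : 400 / φ + 200 ≤ M) (hv : InVM M v) (hu : 100 ≤ u) (s : ℤ) (hs : s = 1 ∨ s = -1)
    (hy : St v z u s y) (k : ℕ) (x : ℕ → Site) (hx : ∀ j, j < k → Tri (x (j + 1) - x j))
    (hn : ∀ j, j ≤ k → nearSeg y (y + sm u v) (x j) (2 * u)) (hx0 : x 0 ∈ eb y (2 * u))
    (hxk : x k ∈ eb (y + sm u v) (2 * u)) (l : ℕ) (w : ℕ → Site)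
    (hw : ∀ j, j < l → Tri (w (j + 1) - w j)) (hw0 : w 0 ∈ eb z (12 * u))
    (hwr : ∀ j, j ≤ l → nrm (w j - z) ≤ 69 * u / φ)
    (hwl : 24 * u * nrm v < s * (fdet v (w l - z) : ℝ)) :
    ∃ i j, i ≤ k ∧ j ≤ l ∧ x i = w j ∧ x i ∉ eb z (12 * u) := by
  have hu' : (100 : ℝ) ≤ u := by exact_mod_cast hu
  have hφ' : 400 ≤ 400 / φ := by
    rw [le_div_iff₀ hφ]
    linarith
  have hM2 : (2 : ℝ) ≤ M := by linarith
  obtain ⟨hL, -⟩ := invm M v (by exact_mod_cast hM2) hv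
  have hLpos : 0 < nrm v := by linarith
  have hsa : |(s : ℝ)| = 1 := by rcases hs with rfl | rfl <;> norm_num
  obtain ⟨he0, -⟩ := tube_end v z y (x 0) u hu s hs hy
  obtain ⟨-, hek⟩ := tube_end v z y (x k) u hu s hs hy
  obtain ⟨e01, e02⟩ := he0 hx0
  obtain ⟨ek1, ek2⟩ := hek hxk
  have hlo : ∀ q : Site, q ∈ eb z (12 * u) → s * (fdet v (q - z) : ℝ) ≤ 12 * u * nrm v := by
    intro q hq
    have h1 := (mem_eb z q _).1 hq
    push_cast at h1
    have h2 := fdet_le v (q - z)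
    have h3 : s * (fdet v (q - z) : ℝ) ≤ |(fdet v (q - z) : ℝ)| := by
      refine (le_abs_self _).trans ?_
      rw [abs_mul, hsa, one_mul]
    have h4 : nrm v * nrm (q - z) ≤ nrm v * (12 * u) := mul_le_mul_of_nonneg_left h1 hLpos.le
    linarith
  have huL : 0 < (u : ℝ) * nrm v := mul_pos (by linarith) hLpos
  have h0 : ∀ i, i ≤ k → s * fdet v (w 0) < s * fdet v (x i) := by
    intro i hi
    obtain ⟨h1, -, -⟩ := tube_pt v z y (x i) u hu s hs hy (hn i hi)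
    have h2 := hlo _ hw0
    have h3 : s * (fdet v (w 0 - z) : ℝ) < s * (fdet v (x i - z) : ℝ) := by linarith
    rw [fdet_sub, fdet_sub] at h3
    push_cast at h3
    have h4 : (s : ℝ) * (fdet v (w 0) : ℝ) < s * (fdet v (x i) : ℝ) := by linarith
    exact_mod_cast h4
  have h1 : ∀ i, i ≤ k → s * fdet v (x i) < s * fdet v (w l) := by
    intro i hi
    obtain ⟨-, h1, -⟩ := tube_pt v z y (x i) u hu s hs hy (hn i hi)
    have h3 : s * (fdet v (x i - z) : ℝ) < s * (fdet v (w l - z) : ℝ) := by linarith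
    rw [fdet_sub, fdet_sub] at h3
    push_cast at h3
    have h4 : (s : ℝ) * (fdet v (x i) : ℝ) < s * (fdet v (w l) : ℝ) := by linarith
    exact_mod_cast h4
  have hnsq := nrm_sq v
  rw [nsq_cast] at hnsq
  have hwide : ∀ c : ℝ, 1 / 2 * nrm v ^ 2 ≤ c ^ 2 → 23 * (u : ℝ) + 69 * u / φ < u * |c| / 2 := by
    intro c hc
    have h2 : 7 / 10 * ((M : ℝ) - 2) ≤ |c| := by
      refine (sq_le_sq₀ (by linarith) (abs_nonneg _)).1 ?_
      rw [sq_abs]
      have h3 := pow_le_pow_left₀ (by linarith) hL 2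
      nlinarith
    have h3 : 69 * (u : ℝ) / φ = u * (69 / 400 * (400 / φ)) := by
      field_simp
    rw [h3]
    have h4 : 23 + 69 / 400 * (400 / φ) < |c| / 2 := by linarith
    have h5 := mul_lt_mul_of_pos_left h4 (by linarith : (0 : ℝ) < u)
    linarith
  have hfin : (∃ i j, i ≤ k ∧ j ≤ l ∧ x i = w j) → ∃ i j, i ≤ k ∧ j ≤ l ∧ x i = w j ∧
      x i ∉ eb z (12 * u) := by
    rintro ⟨i, j, hi, hj, h⟩
    refine ⟨i, j, hi, hj, h, fun hmem => ?_⟩
    obtain ⟨h2, -, -⟩ := tube_pt v z y (x i) u hu s hs hy (hn i hi)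
    have h3 := hlo _ hmem
    linarith
  apply hfin
  rcases le_total ((v.2 : ℝ) ^ 2) ((v.1 : ℝ) ^ 2) with hc | hc
  · have hwd := hwide v.1 (by linarith)
    refine meet3 hPAR v ?_ s hs k l x w hx hw ?_ h0 h1
    · intro h2
      rw [h2] at hc hnsq
      have : (v.2 : ℝ) ^ 2 = 0 := le_antisymm (by simpa using hc) (sq_nonneg _)
      rw [this] at hnsq
      norm_num at hnsq
      linarith
    · intro j hj
      obtain ⟨c1, c2⟩ := col v.1 ((x 0).1 - z.1) ((x k).1 - z.1) ((w j).1 - z.1) u (69 * u / φ)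
        e01 ek1 (coord_le _ _ _ (hwr j hj)).1 hwd
      exact ⟨back _ _ _ _ c1, back _ _ _ _ c2⟩
  · have hwd := hwide v.2 (by linarith)
    refine meet4 hPAR v ?_ s hs k l x w hx hw ?_ h0 h1
    · intro h2
      rw [h2] at hc hnsq
      have : (v.1 : ℝ) ^ 2 = 0 := le_antisymm (by simpa using hc) (sq_nonneg _)
      rw [this] at hnsq
      norm_num at hnsq
      linarith
    · intro j hj
      obtain ⟨c1, c2⟩ := col v.2 ((x 0).2 - z.2) ((x k).2 - z.2) ((w j).2 - z.2) u (69 * u / φ)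
        e02 ek2 (coord_le _ _ _ (hwr j hj)).2 hwd
      exact ⟨back _ _ _ _ c1, back _ _ _ _ c2⟩

/-- QRNG: four crossed tubes in two directions make a shield -/
theorem pf_RNG (hPAR : Q_PAR) : Q_RNG := by
  intro φ hφ hφ1
  refine ⟨⌈400 / φ + 200⌉₊, fun M hM v1 v2 h1 h2 hdet u hu z => ?_⟩
  have hM' : 400 / φ + 200 ≤ M := (Nat.le_ceil _).trans (by exact_mod_cast hM)
  have hφ' : 400 ≤ 400 / φ := by
    rw [le_div_iff₀ hφ]
    linarith
  have hu' : (100 : ℝ) ≤ u := by exact_mod_cast hu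
  have hM2 : (2 : ℝ) ≤ M := by linarith
  obtain ⟨hL1, hU1⟩ := invm M v1 (by exact_mod_cast hM2) h1
  obtain ⟨hL2, hU2⟩ := invm M v2 (by exact_mod_cast hM2) h2
  have hp1 : 0 < nrm v1 := by linarith
  have hp2 : 0 < nrm v2 := by linarith
  obtain ⟨a, s, has, hcov⟩ : ∃ (a : Fin 4 → Site) (s : Fin 4 → ℤ),
      (∀ i, (a i = v1 ∨ a i = v2) ∧ (s i = 1 ∨ s i = -1)) ∧
      ∀ (v : Site) (t : ℤ), (v = v1 ∨ v = v2) → (t = 1 ∨ t = -1) → ∃ i, a i = v ∧ s i = t := by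
    refine ⟨![v1, v1, v2, v2], ![1, -1, 1, -1], ?_, ?_⟩
    · intro i
      fin_cases i <;> simp
    · rintro v t (rfl | rfl) (rfl | rfl)
      · exact ⟨0, by simp⟩
      · exact ⟨1, by simp⟩
      · exact ⟨2, by simp⟩
      · exact ⟨3, by simp⟩
  have hprop : ∀ i, 0 < nrm (a i) ∧ nrm (a i) ≤ M + 2 ∧ InVM M (a i) := by
    intro i
    rcases (has i).1 with h | h <;> rw [h]
    · exact ⟨hp1, hU1, h1⟩
    · exact ⟨hp2, hU2, h2⟩
  have hst : ∀ i, ∃ y, St (a i) z u (s i) y := fun i => st_ex (a i) z (hprop i).1 u (s i)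
  choose y hy using hst
  refine ⟨y, a, fun i => (has i).1, ?_, ?_⟩
  · intro i x hx
    obtain ⟨-, -, h⟩ := tube_pt (a i) z (y i) x u hu (s i) (has i).2 (hy i) hx
    rw [mem_eb]
    push_cast
    have h3 : (u : ℝ) * nrm (a i) ≤ u * (M + 2) :=
      mul_le_mul_of_nonneg_left (hprop i).2.1 (by linarith)
    have h4 : 0 ≤ (M : ℝ) * u := by positivity
    linarith
  · intro D hD l w hw hw0 hwl
    have hL0 : ∀ v : Site, 0 ≤ nrm v := nrm_nonneg
    have hex : ∃ j, ¬ (|(fdet v1 (w j - z) : ℝ)| ≤ 24 * u * nrm v1 ∧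
        |(fdet v2 (w j - z) : ℝ)| ≤ 24 * u * nrm v2) := by
      refine ⟨l, fun h => hwl ?_⟩
      have h3 := para v1 v2 (w l - z) φ u hφ hφ1 (by linarith) hp1 hp2 hdet h.1 h.2
      rw [mem_eb]
      push_cast
      have h4 : 68 * (u : ℝ) / φ = u * (68 / 400 * (400 / φ)) := by
        field_simp
      have h5 : (u : ℝ) * (68 / 400 * (400 / φ)) ≤ u * (M + 100) :=
        mul_le_mul_of_nonneg_left (by linarith) (by linarith)
      linarith
    classical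
    obtain ⟨j1, hj1, hmin⟩ : ∃ j, ¬ (|(fdet v1 (w j - z) : ℝ)| ≤ 24 * u * nrm v1 ∧
        |(fdet v2 (w j - z) : ℝ)| ≤ 24 * u * nrm v2) ∧ ∀ i, i < j →
        (|(fdet v1 (w i - z) : ℝ)| ≤ 24 * u * nrm v1 ∧
        |(fdet v2 (w i - z) : ℝ)| ≤ 24 * u * nrm v2) :=
      ⟨Nat.find hex, Nat.find_spec hex, fun i hi => not_not.1 (Nat.find_min hex hi)⟩
    have hj1l : j1 ≤ l := by
      by_contra hlt
      push Not at hlt
      have h := hmin l hlt
      apply hwl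
      have h3 := para v1 v2 (w l - z) φ u hφ hφ1 (by linarith) hp1 hp2 hdet h.1 h.2
      rw [mem_eb]
      push_cast
      have h4 : 68 * (u : ℝ) / φ = u * (68 / 400 * (400 / φ)) := by
        field_simp
      have h5 : (u : ℝ) * (68 / 400 * (400 / φ)) ≤ u * (M + 100) :=
        mul_le_mul_of_nonneg_left (by linarith) (by linarith)
      linarith
    have hin0 : ∀ v : Site, |(fdet v (w 0 - z) : ℝ)| ≤ 24 * u * nrm v := by
      intro v
      have h3 := (mem_eb z (w 0) _).1 hw0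
      push_cast at h3
      have h4 := mul_le_mul_of_nonneg_left h3 (hL0 v)
      have h5 := fdet_le v (w 0 - z)
      have h6 : 0 ≤ (u : ℝ) * nrm v := mul_nonneg (by linarith) (hL0 v)
      linarith
    have hj1p : 0 < j1 := by
      rcases Nat.eq_zero_or_pos j1 with h | h
      · subst h
        exact absurd ⟨hin0 v1, hin0 v2⟩ hj1
      · exact h
    have hsm : ∀ j, j < j1 → nrm (w j - z) ≤ 68 * u / φ := fun j hj =>
      para v1 v2 (w j - z) φ u hφ hφ1 (by linarith) hp1 hp2 hdet (hmin j hj).1 (hmin j hj).2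
    have hwr : ∀ j, j ≤ j1 → nrm (w j - z) ≤ 69 * u / φ := by
      have h4 : (69 * (u : ℝ)) / φ = 68 * u / φ + u / φ := by ring
      have h5 : 100 ≤ (u : ℝ) / φ := by
        rw [le_div_iff₀ hφ]
        linarith
      intro j hj
      rcases hj.lt_or_eq with h | h
      · have := hsm j h
        linarith
      · subst h
        obtain ⟨j', rfl⟩ : ∃ j', j = j' + 1 := ⟨j - 1, by omega⟩
        have h6 := hsm j' (by omega)
        have h7 := nrm_sub (w (j' + 1)) (w j') z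
        have h8 := tri_nrm (hw j' (by omega))
        linarith
    have hside : ∃ i, 24 * u * nrm (a i) < s i * (fdet (a i) (w j1 - z) : ℝ) := by
      have hv : ∃ v : Site, (v = v1 ∨ v = v2) ∧ 24 * u * nrm v < |(fdet v (w j1 - z) : ℝ)| := by
        by_contra hcon
        push Not at hcon
        exact hj1 ⟨hcon v1 (Or.inl rfl), hcon v2 (Or.inr rfl)⟩
      obtain ⟨v, hv1, hv2⟩ := hv
      rcases lt_abs.1 hv2 with h | h
      · obtain ⟨i, hi1, hi2⟩ := hcov v 1 hv1 (Or.inl rfl)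
        refine ⟨i, ?_⟩
        rw [hi1, hi2, Int.cast_one, one_mul]
        exact h
      · obtain ⟨i, hi1, hi2⟩ := hcov v (-1) hv1 (Or.inr rfl)
        refine ⟨i, ?_⟩
        rw [hi1, hi2, Int.cast_neg, Int.cast_one, neg_one_mul]
        exact h
    obtain ⟨i, hi⟩ := hside
    obtain ⟨k, x, hxD, hxT, hxn, hx0, hxk⟩ := hD i
    obtain ⟨i', j, hi', hj, he, hout⟩ := one hPAR (a i) z (y i) M u φ hφ hφ1 hM' (hprop i).2.2 hu
      (s i) (has i).2 (hy i) k x hxT hxn hx0 hxk j1 w (fun j hj => hw j (by omega)) hw0 hwr hi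
    rw [he] at hout
    refine ⟨j, hj.trans hj1l, ?_, hout⟩
    rw [← he]
    exact hxD i' hi'

end Pool.Agent.H10.RFZ
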